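import Pool.Agent.Helper76.TL.StC7

/-!
# Project TL, module DIMOE7: dimension of subOE7
-/

set_option autoImplicit false

namespace Pool.Agent.Helper85.TL

open Pool.Agent.Helper76.TL7 Pool.Agent.Helper4.TL Pool.Agent.Helper76.S7 Pool.Agent.Helper14.W5

section lin

variable {W W' : Type} [AddCommGroup W] [Module ℂ W] [FiniteDimensional ℂ W] [AddCommGroup W']
  [Module ℂ W']

private theorem rn (f : W →ₗ[ℂ] W') (V : Submodule ℂ W) :
    Module.finrank ℂ (V.map f) + Module.finrank ℂ ↥(V ⊓ LinearMap.ker f) =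
      Module.finrank ℂ V := by
  have h := LinearMap.finrank_range_add_finrank_ker (f.domRestrict V)
  rw [LinearMap.range_domRestrict, LinearMap.ker_domRestrict] at h
  have h2 : Module.finrank ℂ ↥((LinearMap.ker f).comap V.subtype) =
      Module.finrank ℂ ↥(V ⊓ LinearMap.ker f) := by
    rw [← Submodule.map_comap_subtype, Submodule.finrank_map_subtype_eq]
  rw [h2] at h
  exact h

private theorem fr_prod (V V' : Submodule ℂ W) :
    Module.finrank ℂ ↥(V.prod V') = Module.finrank ℂ V + Module.finrank ℂ V' := by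
  have h1 : V.prod V' = LinearMap.range (V.subtype.prodMap V'.subtype) := by
    rw [LinearMap.range_prodMap, Submodule.range_subtype, Submodule.range_subtype]
  rw [h1, LinearMap.finrank_range_of_inj, Module.finrank_prod]
  rintro ⟨a, b⟩ ⟨a', b'⟩ h
  simp only [LinearMap.prodMap_apply, Submodule.subtype_apply, Prod.mk.injEq,
    SetLike.coe_eq_coe] at h
  rw [h.1, h.2]

end lin

/-- `4` times the projection onto `inv7 r r' e e'` -/
private def P {m : ℕ} (r r' : Pt m → Pt m) (e e' : ℂ) : (Pt m → ℂ) →ₗ[ℂ] (Pt m → ℂ) where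
  toFun F p := F p + e * F (r p) + e' * F (r' p) + e * e' * F (r (r' p))
  map_add' F F' := by funext p; simp only [Pi.add_apply]; ring
  map_smul' c F := by funext p; simp only [Pi.smul_apply, smul_eq_mul, RingHom.id_apply]; ring

private theorem P_apply {m : ℕ} (r r' : Pt m → Pt m) (e e' : ℂ) (F : Pt m → ℂ) (p : Pt m) :
    P r r' e e' F p = F p + e * F (r p) + e' * F (r' p) + e * e' * F (r (r' p)) := rfl

/-- Sums over the classes modulo seven. -/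
private theorem sum7 (g : ZMod 7 → ℂ) :
    ∑ i ∈ Finset.range 7, g ((i : ℕ) : ZMod 7) = ∑ j : ZMod 7, g j := by
  rw [Finset.sum_range]
  exact Finset.sum_congr rfl (fun i _ => by congr 1; exact ZMod.natCast_zmod_val (n := 7) i)

private theorem sum7_mul (g : ZMod 7 → ℂ) {s : ℤ} (hs : ¬ (7 : ℤ) ∣ s) :
    ∑ i ∈ Finset.range 7, g ((s : ZMod 7) * ((i : ℕ) : ZMod 7)) =
      ∑ i ∈ Finset.range 7, g ((i : ℕ) : ZMod 7) := by
  have : Fact (Nat.Prime 7) := ⟨by norm_num⟩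
  have h0 : (s : ZMod 7) ≠ 0 := by
    intro h
    exact hs ((ZMod.intCast_zmod_eq_zero_iff_dvd s 7).1 h)
  rw [sum7 (fun j => g ((s : ZMod 7) * j)), sum7 g]
  exact Equiv.sum_comp (Equiv.mulLeft₀ (s : ZMod 7) h0) g

private theorem step7 {m : ℕ} (hm : 1 ≤ m) (n : ℤ) :
    (n : ZMod (7 ^ m)) * 7 ^ (m - 1) =
      (((n : ZMod 7).val : ℕ) : ZMod (7 ^ m)) * 7 ^ (m - 1) := by
  have h1 : (((n : ZMod 7).val : ℕ) : ℤ) = n % 7 := ZMod.val_intCast n
  have h2 : n = 7 * (n / 7) + (((n : ZMod 7).val : ℕ) : ℤ) := by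
    rw [h1]; exact (Int.mul_ediv_add_emod n 7).symm
  have h3 : (7 : ZMod (7 ^ m)) * 7 ^ (m - 1) = 0 := by
    rw [← pow_succ', Nat.sub_add_cancel hm]
    have h4 := ZMod.natCast_self (7 ^ m)
    push_cast at h4
    exact h4
  have h5 : (n : ZMod (7 ^ m)) = 7 * ((n / 7 : ℤ) : ZMod (7 ^ m)) +
      (((n : ZMod 7).val : ℕ) : ZMod (7 ^ m)) := by
    have := congrArg (Int.cast : ℤ → ZMod (7 ^ m)) h2
    push_cast at this
    exact this
  calc (n : ZMod (7 ^ m)) * 7 ^ (m - 1) = (7 * ((n / 7 : ℤ) : ZMod (7 ^ m)) +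
      (((n : ZMod 7).val : ℕ) : ZMod (7 ^ m))) * 7 ^ (m - 1) := by rw [← h5]
    _ = ((n / 7 : ℤ) : ZMod (7 ^ m)) * (7 * 7 ^ (m - 1)) +
        (((n : ZMod 7).val : ℕ) : ZMod (7 ^ m)) * 7 ^ (m - 1) := by ring
    _ = _ := by rw [h3]; ring

private theorem sum_s {m : ℕ} (hm : 1 ≤ m) (g : ZMod (7 ^ m) → ℂ) (x : ZMod (7 ^ m)) {s : ℤ}
    (hs : ¬ (7 : ℤ) ∣ s) :
    ∑ i ∈ Finset.range 7, g (x + s * (i * 7 ^ (m - 1))) =
      ∑ i ∈ Finset.range 7, g (x + i * 7 ^ (m - 1)) := by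
  have h := sum7_mul (fun j : ZMod 7 => g (x + ((j.val : ℕ) : ZMod (7 ^ m)) * 7 ^ (m - 1))) hs
  have e1 : ∀ i ∈ Finset.range 7, g (x + s * (i * 7 ^ (m - 1))) =
      g (x + ((((s : ZMod 7) * ((i : ℕ) : ZMod 7)).val : ℕ) : ZMod (7 ^ m)) * 7 ^ (m - 1)) := by
    intro i _
    have h1 := step7 hm (s * (i : ℤ))
    push_cast at h1
    rw [← h1, mul_assoc]
  have e2 : ∀ i ∈ Finset.range 7, g (x + i * 7 ^ (m - 1)) =
      g (x + (((((i : ℕ) : ZMod 7)).val : ℕ) : ZMod (7 ^ m)) * 7 ^ (m - 1)) := by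
    intro i _
    have h1 := step7 hm (i : ℤ)
    push_cast at h1
    rw [← h1]
  rw [Finset.sum_congr rfl e1, Finset.sum_congr rfl e2]
  exact h

private theorem anti_s {m : ℕ} (hm : 1 ≤ m) {F : Pt m → ℂ} (hF : F ∈ anti7 m) {s : ℤ}
    (hs : ¬ (7 : ℤ) ∣ s) (x y : ZMod (7 ^ m)) :
    ∑ i ∈ Finset.range 7, F (x + s * (i * 7 ^ (m - 1)), y) = 0 ∧
      ∑ i ∈ Finset.range 7, F (x, y + s * (i * 7 ^ (m - 1))) = 0 := by
  have h := hF (x, y)
  exact ⟨(sum_s hm (fun z => F (z, y)) x hs).trans h.1,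
    (sum_s hm (fun z => F (x, z)) y hs).trans h.2⟩

private theorem dv_step {m : ℕ} (hm : 1 ≤ m) {s : ℤ} {φ : ZMod (7 ^ m) → ZMod (7 ^ m)}
    (h : Dv s φ) (x : ZMod (7 ^ m)) (i : ℕ) :
    φ (x + i * 7 ^ (m - 1)) = φ x + s * (i * 7 ^ (m - 1)) := by
  have h1 := h (m - 1) (x + i * 7 ^ (m - 1)) x ⟨i, by ring⟩
  have h2 : (7 : ZMod (7 ^ m)) ^ (m - 1 + 1) = 0 := by
    rw [Nat.sub_add_cancel hm]
    have h3 := ZMod.natCast_self (7 ^ m)
    push_cast at h3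
    exact h3
  rw [h2, zero_dvd_iff] at h1
  linear_combination h1

private theorem anti_comp {m n : ℕ} (hm : 1 ≤ m) {r : Pt m → Pt m} (hr : Ty n r) {F : Pt m → ℂ}
    (hF : F ∈ anti7 m) : (fun p => F (r p)) ∈ anti7 m := by
  rcases hr with ⟨_, s, s', φ, φ', hs, _, hs', _, hφ, hφ', hr⟩ |
    ⟨_, s, s', ψ, ψ', hs, hs', hψ, hψ', hr⟩
  · intro p
    simp only [hr, dv_step hm hφ, dv_step hm hφ']
    exact ⟨(anti_s hm hF hs (φ p.1) (φ' p.2)).1, (anti_s hm hF hs' (φ p.1) (φ' p.2)).2⟩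
  · intro p
    simp only [hr, dv_step hm hψ, dv_step hm hψ']
    exact ⟨(anti_s hm hF hs' (ψ p.2) (ψ' p.1)).2, (anti_s hm hF hs (ψ p.2) (ψ' p.1)).1⟩

private theorem P_mem {m n n' : ℕ} (hm : 1 ≤ m) {r r' : Pt m → Pt m} (hk : Kl r r') (hr : Ty n r)
    (hr' : Ty n' r') {e e' : ℂ} (he : e * e = 1) (he' : e' * e' = 1) {F : Pt m → ℂ}
    (hF : F ∈ anti7 m) : P r r' e e' F ∈ inv7 r r' e e' := by
  obtain ⟨k1, k2, k3⟩ := hk
  have h1 : (fun p => F (r p)) ∈ anti7 m := anti_comp hm hr hF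
  have h2 : (fun p => F (r' p)) ∈ anti7 m := anti_comp hm hr' hF
  have h3 : (fun p => F (r (r' p))) ∈ anti7 m := anti_comp hm hr' h1
  refine ⟨?_, fun p => ⟨?_, ?_⟩⟩
  · have h4 : P r r' e e' F = F + e • (fun p => F (r p)) + e' • (fun p => F (r' p)) +
        (e * e') • (fun p => F (r (r' p))) := by
      funext p
      simp only [P_apply, Pi.add_apply, Pi.smul_apply, smul_eq_mul]
    rw [h4]
    exact Submodule.add_mem _ (Submodule.add_mem _ (Submodule.add_mem _ hF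
      (Submodule.smul_mem _ _ h1)) (Submodule.smul_mem _ _ h2)) (Submodule.smul_mem _ _ h3)
  · simp only [P_apply]
    rw [k1 p, ← k3 p, k1 (r' p)]
    linear_combination (-(F (r p)) - e' * F (r (r' p))) * he
  · simp only [P_apply]
    rw [k2 p]
    linear_combination (-(F (r' p)) - e * F (r (r' p))) * he'

/-- The map `(f, l) ↦ (f - l) + (f - l)∘sw∘cO + (f - l)∘cO∘sw`. -/
private def L (m : ℕ) : ((Pt m → ℂ) × (Pt m → ℂ)) →ₗ[ℂ] (Pt m → ℂ) where
  toFun F p := (F.1 p - F.2 p) + (F.1 (sw (cO p)) - F.2 (sw (cO p))) +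
    (F.1 (cO (sw p)) - F.2 (cO (sw p)))
  map_add' F F' := by
    funext p; simp only [Prod.fst_add, Prod.snd_add, Pi.add_apply]; ring
  map_smul' c F := by
    funext p
    simp only [Prod.smul_fst, Prod.smul_snd, Pi.smul_apply, smul_eq_mul, RingHom.id_apply]; ring

private theorem L_apply {m : ℕ} (F : (Pt m → ℂ) × (Pt m → ℂ)) (p : Pt m) :
    L m F p = (F.1 p - F.2 p) + (F.1 (sw (cO p)) - F.2 (sw (cO p))) +
      (F.1 (cO (sw p)) - F.2 (cO (sw p))) := rfl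

private theorem dim_one {m n n' n'' : ℕ} (hk : S7DimK) (hm : 1 ≤ m) {r r' : Pt m → Pt m}
    (hkl : Kl r r') (hr : Ty n r) (hr' : Ty n' r') (hr'' : Ty n'' (fun p => r (r' p)))
    (hn : n + n' + n'' = 2) :
    Module.finrank ℂ (inv7 r r' (1 : ℂ) (1 : ℂ)) = 9 * 49 ^ (m - 1) + 3 * 7 ^ (m - 1) := by
  have h2 := (hk m hm).2.2.1 r r' n n' n'' 1 1 hkl hr hr' hr'' (Or.inl rfl) (Or.inl rfl)
  rw [Int.cast_one] at h2
  have h3 : ((n : ℤ) + n' + n'') = 2 := by exact_mod_cast hn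
  have h4 : (1 * (n : ℤ) + 1 * n' + 1 * 1 * n'') = 2 := by linarith
  rw [h4] at h2
  have h5 : (Module.finrank ℂ (inv7 r r' (1 : ℂ) (1 : ℂ)) : ℤ) =
      9 * 49 ^ (m - 1) + 3 * 7 ^ (m - 1) := by linarith
  exact_mod_cast h5

/-- DIMOE7. -/
theorem hDimOE7 : StEDimO7 := by
  intro h1 h2 h3 m hm
  obtain ⟨⟨a1, a2, a3, a4⟩, _, _, _, _, ⟨b1, b2, b3, b4⟩, ⟨c1', c2', c3', c4'⟩, _⟩ := h1 m
  have d1 : Module.finrank ℂ (inv7 (ng : Pt m → Pt m) sw (1 : ℂ) (1 : ℂ)) =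
      9 * 49 ^ (m - 1) + 3 * 7 ^ (m - 1) := dim_one h2 hm a1 a2 a3 a4 (by norm_num)
  have d2 : Module.finrank ℂ (inv7 (dR 0 : Pt m → Pt m) cO (-1 : ℂ) (1 : ℂ)) =
      9 * 49 ^ (m - 1) := by
    have h4 := (h2 m hm).2.2.1 (dR 0) cO 0 1 1 (-1) 1 b1 b2 b3 b4 (Or.inr rfl) (Or.inl rfl)
    rw [Int.cast_neg, Int.cast_one] at h4
    have h5 : (Module.finrank ℂ (inv7 (dR 0 : Pt m → Pt m) cO (-1 : ℂ) (1 : ℂ)) : ℤ) =
        9 * 49 ^ (m - 1) := by
      push_cast at h4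
      linarith
    exact_mod_cast h5
  have d3 : Module.finrank ℂ (inv7 (sw : Pt m → Pt m) cO (1 : ℂ) (1 : ℂ)) =
      6 * 49 ^ (m - 1) + 3 * 7 ^ (m - 1) :=
    (h2 m hm).2.2.2 sw cO c1' a3 b3 c2' c3' c4'
  obtain ⟨e1, e2, e3⟩ := c1'
  have hmap : ((inv7 (ng : Pt m → Pt m) sw (1 : ℂ) (1 : ℂ)).prod
      (inv7 (dR 0 : Pt m → Pt m) cO (-1 : ℂ) (1 : ℂ))).map (L m) =
      inv7 (sw : Pt m → Pt m) cO (1 : ℂ) (1 : ℂ) := by
    apply le_antisymm
    · rintro _ ⟨⟨f, l⟩, ⟨⟨hf, hf'⟩, ⟨hl, hl'⟩⟩, rfl⟩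
      dsimp only at hf hf' hl hl'
      have f1 : ∀ p, f (sw p) = f p := fun p => by rw [(hf' p).2, one_mul]
      have l1 : ∀ p, l (cO p) = l p := fun p => by rw [(hl' p).2, one_mul]
      have hu : (fun p => f (sw (cO p))) ∈ anti7 m := anti_comp hm c2' hf
      have hv : (fun p => l (sw (cO p))) ∈ anti7 m := anti_comp hm c2' hl
      have hu' : (fun p => f (cO (sw p))) ∈ anti7 m := anti_comp hm c3' hf
      have hv' : (fun p => l (cO (sw p))) ∈ anti7 m := anti_comp hm c3' hl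
      refine ⟨?_, fun p => ⟨?_, ?_⟩⟩
      · have h4 : L m (f, l) = (f - l) + ((fun p => f (sw (cO p))) - (fun p => l (sw (cO p)))) +
            ((fun p => f (cO (sw p))) - (fun p => l (cO (sw p)))) := by
          funext p
          simp only [L_apply, Pi.add_apply, Pi.sub_apply]
        rw [h4]
        exact Submodule.add_mem _ (Submodule.add_mem _ (Submodule.sub_mem _ hf hl)
          (Submodule.sub_mem _ hu hv)) (Submodule.sub_mem _ hu' hv')
      · simp only [L_apply, one_mul]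
        have g1 : f (sw (cO (sw p))) = f (cO (sw p)) := f1 _
        have g2 : f (cO (sw (sw p))) = f (sw (cO p)) := by rw [e1 p, f1 (cO p)]
        have g3 : l (sw (cO (sw p))) = l (sw (cO p)) := by rw [e3 p, l1]
        have g4 : l (cO (sw (sw p))) = l p := by rw [e1 p, l1 p]
        have g5 : l (sw p) = l (cO (sw p)) := (l1 (sw p)).symm
        rw [g1, g2, g3, g4, g5, f1 p]
        ring
      · simp only [L_apply, one_mul]
        have g1 : f (sw (cO (cO p))) = f p := by rw [e2 p, f1 p]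
        have g2 : f (cO (sw (cO p))) = f (cO (sw p)) := by rw [← e3 p, f1]
        have g3 : f (cO p) = f (sw (cO p)) := (f1 (cO p)).symm
        have g4 : l (sw (cO (cO p))) = l (cO (sw p)) := by rw [e2 p, l1 (sw p)]
        have g5 : l (cO (sw (cO p))) = l (sw (cO p)) := l1 _
        rw [g1, g2, g3, g4, g5, l1 p]
        ring
    · intro φ hφ
      obtain ⟨hφ0, hφ1⟩ := hφ
      obtain ⟨f, hf, l, hl, hfn, hld, hfl⟩ := h3 0 m hm φ hφ0
      have p1 : ∀ p, φ (sw p) = φ p := fun p => by rw [(hφ1 p).1, one_mul]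
      have p2 : ∀ p, φ (cO p) = φ p := fun p => by rw [(hφ1 p).2, one_mul]
      have m1 : P (ng : Pt m → Pt m) sw (1 : ℂ) (1 : ℂ) f ∈
          inv7 (ng : Pt m → Pt m) sw (1 : ℂ) (1 : ℂ) :=
        P_mem hm a1 a2 a3 (by norm_num) (by norm_num) hf
      have m2 : P (dR 0 : Pt m → Pt m) cO (-1 : ℂ) (1 : ℂ) l ∈
          inv7 (dR 0 : Pt m → Pt m) cO (-1 : ℂ) (1 : ℂ) :=
        P_mem hm b1 b2 b3 (by norm_num) (by norm_num) hl
      refine ⟨((12 : ℂ)⁻¹ • P (ng : Pt m → Pt m) sw (1 : ℂ) (1 : ℂ) f,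
        (-(12 : ℂ)⁻¹) • P (dR 0 : Pt m → Pt m) cO (-1 : ℂ) (1 : ℂ) l),
        ⟨Submodule.smul_mem _ _ m1, Submodule.smul_mem _ _ m2⟩, ?_⟩
      funext p
      rw [L_apply]
      simp only [Pi.smul_apply, smul_eq_mul, P_apply]
      have q1 : cO (sw (cO p)) = sw (cO (sw p)) := (e3 p).symm
      have q2 : cO (cO (sw p)) = sw p := e2 _
      rw [hfn p, hfn (sw p), hfn (sw (cO p)), hfn (sw (sw (cO p))), hfn (cO (sw p)),
        hfn (sw (cO (sw p))), hld p, hld (cO p), hld (sw (cO p)), hld (cO (sw (cO p))),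
        hld (cO (sw p)), hld (cO (cO (sw p))), e1 (cO p), q1, q2]
      have s1 := hfl p
      have s2 := hfl (sw p)
      have s3 := hfl (cO p)
      have s4 := hfl (sw (cO p))
      have s5 := hfl (cO (sw p))
      have s6 := hfl (sw (cO (sw p)))
      rw [p1 p] at s2
      rw [p2 p] at s3
      rw [p1 (cO p), p2 p] at s4
      rw [p2 (sw p), p1 p] at s5
      rw [p1 (cO (sw p)), p2 (sw p), p1 p] at s6
      linear_combination (1 / 6 : ℂ) * s1 + (1 / 6 : ℂ) * s2 + (1 / 6 : ℂ) * s3 +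
        (1 / 6 : ℂ) * s4 + (1 / 6 : ℂ) * s5 + (1 / 6 : ℂ) * s6
  have hker : (inv7 (ng : Pt m → Pt m) sw (1 : ℂ) (1 : ℂ)).prod
      (inv7 (dR 0 : Pt m → Pt m) cO (-1 : ℂ) (1 : ℂ)) ⊓ LinearMap.ker (L m) = subOE7 m := by
    ext F
    constructor
    · rintro ⟨⟨h1, h2⟩, h5⟩
      rw [SetLike.mem_coe, LinearMap.mem_ker] at h5
      exact ⟨h1, h2, fun p => congrFun h5 p⟩
    · rintro ⟨h1, h2, h⟩
      refine ⟨⟨h1, h2⟩, ?_⟩
      rw [SetLike.mem_coe, LinearMap.mem_ker]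
      funext p
      exact h p
  have h6 := rn (L m) ((inv7 (ng : Pt m → Pt m) sw (1 : ℂ) (1 : ℂ)).prod
      (inv7 (dR 0 : Pt m → Pt m) cO (-1 : ℂ) (1 : ℂ)))
  rw [hmap, hker, fr_prod, d1, d2, d3] at h6
  omega

end Pool.Agent.Helper85.TL
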